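import Pool.Agent.LevelRow.Pair

/-!
# The number of sign changes of a pair of tapes
-/

namespace LevelRow

open LevelLower LevelRate

theorem cDU_prev {f : ℕ → ℤ} {q : ℕ} (h : 0 < cDU f q) :
    ∃ q' < q, f q' = -1 ∧ lastNZ f q' = 1 ∧ cDU f q' + 1 = cDU f q := by
  induction q with
  | zero => exact absurd h (lt_irrefl 0)
  | succ q ih =>
    by_cases h0 : f q = -1 ∧ lastNZ f q = 1
    · refine ⟨q, by omega, h0.1, h0.2, ?_⟩
      rw [cDU, if_pos h0]
    · rw [cDU, if_neg h0, Nat.add_zero] at h ⊢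
      obtain ⟨q', h1, h2, h3, h4⟩ := ih h
      exact ⟨q', by omega, h2, h3, h4⟩

/-- the counting argument -/
theorem count {f : ℕ → ℤ} {v X c : ℕ → ℕ} {L : ℕ → ℤ} (hc : Monotone c)
    (hX : ∀ p q, c p = c q → X p = X q) (hL : ∀ p q, c p = c q → L p = L q)
    (hrow : ∀ p q, p ≤ q → c p = c q → v p ≤ v q)
    (hord : ∀ p q, c p < c q → L p = L q → X p < X q)
    (hsame : ∀ p q, p < q → f p = 1 → f q = -1 → c p = c q → v p < v q)
    (hdiff : ∀ p q, p < q → f p = 1 → f q = -1 → c p ≠ c q → L p = L q ∧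
      v p + 2 * (X q - X p : ℤ) ≤ v q) (q : ℕ) : f q = -1 → lastNZ f q = 1 →
    cDU f q + 1 ≤ v q ∧ ∃ p < q, f p = 1 ∧ (cDU f q : ℤ) ≤ v p + 2 * (X q - X p : ℤ) := by
  have hLL : ∀ p q, p < q → f p = 1 → f q = -1 → L p = L q := fun p q h h1 h2 => by
    by_cases h3 : c p = c q
    · exact hL _ _ h3
    · exact (hdiff p q h h1 h2 h3).1
  have hXX : ∀ p q, p < q → f p = 1 → f q = -1 → (X p : ℤ) ≤ X q := fun p q h h1 h2 => by
    by_cases h3 : c p = c q
    · rw [hX _ _ h3]
    · exact_mod_cast (hord p q (lt_of_le_of_ne (hc h.le) h3) (hLL p q h h1 h2)).le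
  induction q using Nat.strong_induction_on with
  | _ q ih =>
    intro hq hl
    obtain ⟨p, hp, hp1, hp2⟩ := lastNZ_spec (f := f) (q := q) (by rw [hl]; norm_num)
    rw [hl] at hp1
    rcases Nat.eq_zero_or_pos (cDU f q) with h0 | h0
    · rw [h0]
      have h1 := hXX p q hp hp1 hq
      constructor
      · by_cases h3 : c p = c q
        · have := hsame p q hp hp1 hq h3
          omega
        · have h4 := (hdiff p q hp hp1 hq h3).2
          have h5 := hord p q (lt_of_le_of_ne (hc hp.le) h3) (hLL p q hp hp1 hq)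
          omega
      · exact ⟨p, hp, hp1, by omega⟩
    · obtain ⟨q', a1, a2, a3, a4⟩ := cDU_prev h0
      obtain ⟨b1, p', b2, b3, b4⟩ := ih q' a1 a2 a3
      have hqp : q' < p := by
        rcases lt_trichotomy q' p with h1 | h1 | h1
        · exact h1
        · rw [h1, hp1] at a2
          norm_num at a2
        · have := hp2 q' h1 a1
          rw [this] at a2
          norm_num at a2
      by_cases h3 : c q' = c q
      · have c1 : c p = c q := le_antisymm (hc hp.le) (by
          rw [← h3]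
          exact hc hqp.le)
        have c2 := hrow q' p hqp.le (by rw [h3, c1])
        have c3 := hsame p q hp hp1 hq c1
        refine ⟨by omega, p, hp, hp1, ?_⟩
        rw [hX p q c1]
        omega
      · have c1 : L q' = L q := by
          rw [← hLL p' q' b2 b3 a2, hLL p' q (b2.trans a1) b3 hq]
        have c2 := hord q' q (lt_of_le_of_ne (hc a1.le) h3) c1
        have c3 : c p' ≠ c q := fun h => by
          apply h3
          exact le_antisymm (hc a1.le) (by
            rw [← h]
            exact hc b2.le)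
        have c4 := (hdiff p' q (b2.trans a1) b3 hq c3).2
        exact ⟨by omega, p', b2.trans a1, b3, by omega⟩

theorem cDU_le_of_count {f : ℕ → ℤ} {v : ℕ → ℕ} {M : ℕ} (hv : ∀ q, v q ≤ M)
    (h : ∀ q, f q = -1 → lastNZ f q = 1 → cDU f q + 1 ≤ v q) (N : ℕ) : cDU f N ≤ M := by
  rcases Nat.eq_zero_or_pos (cDU f N) with h0 | h0
  · omega
  · obtain ⟨q, -, h1, h2, h3⟩ := cDU_prev h0
    have := h q h1 h2
    have := hv q
    omega

variable {a b : ℕ}

/-- a tape `P_i` against a tape `P_j`, `i < j` -/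
theorem pair (ha : 1 ≤ a) (hb : 2 ≤ b) {i j : ℕ} (hij : i < j) (A B : ℤ) (N : ℕ) :
    ∃ p, Ph (fun t => (if A < Phi a b i t then 1 else 0) - (if B < Phi a b j t then 1 else 0))
      0 N p (p + (2 * b - 1)) := by
  obtain ⟨k, rfl⟩ : ∃ k, j = i + k + 1 := ⟨j - i - 1, by omega⟩
  have hab : 2 ≤ a * b := by nlinarith
  refine ⟨1, (ph_of_cDU _ (fun t => sgn_cases _ _) N).mono le_rfl ?_⟩
  have key : cDU (fun t => (if A < Phi a b i t then (1 : ℤ) else 0) -
      (if B < Phi a b (i + k + 1) t then 1 else 0)) N ≤ b - 1 := by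
    refine cDU_le_of_count (v := fun t => cl a b (i + k) t / a % b) (fun q => ?_)
      (fun q h1 h2 => (count (v := fun t => cl a b (i + k) t / a % b)
        (X := fun t => Xf a b (cl a b (i + k + 1) t)) (c := cl a b (i + k + 1))
        (L := fun t => Lf a b (cl a b (i + k + 1) t)) (cl_mono _) (fun p q h => ?_)
        (fun p q h => ?_) (fun p q h h' => row_mono ha h h') (fun p q h h' => ?_)
        (fun p q h h1 h2 h3 => ?_) (fun p q h h1 h2 h3 => ?_) q h1 h2).1) N
    · have := row_lt (a := a) (b := b) (by omega) (cl a b (i + k) q)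
      omega
    · rw [h]
    · rw [h]
    · exact ord ha (by omega) hab _ _ h h'.le
    · obtain ⟨g1, g2⟩ := sgn_one h1
      obtain ⟨g3, g4⟩ := sgn_neg_one h2
      exact row_lt_of ha (by omega) h.le h3 (not_lt.1 g2) g4
    · obtain ⟨g1, g2⟩ := sgn_one h1
      obtain ⟨g3, g4⟩ := sgn_neg_one h2
      exact law_diff ha hb h.le h3 (lab_le_of_Phi ha hb (not_lt.1 g2) g4)
        (lab_le_of_Phi ha hb (not_lt.1 g3) g1)
  omega

end LevelRow
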