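import Pool.Agent.LevelRate.Scan

/-!
# Levels with `s = 2 b - 1`: tapes over a row-major subdivision

Time is cut into cells: a cell of level `j + 1` consists of `a * b` cells of level `j`, in `b` rows
of `a` cells, visited row by row. `Xf` is the column of a cell and `Lf` its label.
-/

namespace LevelRow

open LevelLower LevelRate

/-- the column of a cell -/
def Xf (a b : ℕ) (c : ℕ) : ℕ :=
  if h : 2 ≤ a * b ∧ 0 < c then a * Xf a b (c / (a * b)) + c % a else 0
termination_by c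
decreasing_by exact Nat.div_lt_self h.2 h.1

/-- the label of a cell -/
def Lf (a b : ℕ) (c : ℕ) : ℤ :=
  if h : 2 ≤ a * b ∧ 0 < c then
    b * Lf a b (c / (a * b)) + 2 * Xf a b (c / (a * b)) - (c / a % b : ℕ) else 0
termination_by c
decreasing_by exact Nat.div_lt_self h.2 h.1

/-- the pairs (weight of a row, weight of a column) -/
def ab (a b : ℕ) : ℕ → ℕ × ℕ
  | 0 => (1, 0)
  | j + 1 => ((2 * b - 1) * (ab a b j).1 + (a - 1) * (ab a b j).2,
      2 * (ab a b j).1 + a * (ab a b j).2)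

/-- the size of a label of level `j` -/
def kp (a b : ℕ) : ℕ → ℕ
  | 0 => 1
  | j + 1 => (a - 1) * (ab a b j).2 + (b - 1) * (ab a b j).1

/-- the cell of level `j` at time `t` -/
def cl (a b j t : ℕ) : ℕ := t / (a * b) ^ j

/-- the height of the tape `P_j` at time `t` -/
def Phi (a b : ℕ) : ℕ → ℕ → ℤ
  | 0, t => Lf a b t
  | j + 1, t => kp a b (j + 1) * Lf a b (cl a b (j + 1) t) +
      ((ab a b j).1 * (cl a b j t / a % b : ℕ) + (ab a b j).2 * (a - 1 - (cl a b j t % a : ℕ)))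

variable {a b : ℕ}

theorem Xf_zero (a b : ℕ) : Xf a b 0 = 0 := by
  rw [Xf]
  simp

theorem Lf_zero (a b : ℕ) : Lf a b 0 = 0 := by
  rw [Lf]
  simp

theorem Xf_eq (h : 2 ≤ a * b) (c : ℕ) : Xf a b c = a * Xf a b (c / (a * b)) + c % a := by
  rcases Nat.eq_zero_or_pos c with h0 | h0
  · subst h0
    rw [Nat.zero_div, Xf_zero]
    simp
  · rw [Xf, dif_pos ⟨h, h0⟩]

theorem Lf_eq (h : 2 ≤ a * b) (c : ℕ) : Lf a b c =
    b * Lf a b (c / (a * b)) + 2 * Xf a b (c / (a * b)) - (c / a % b : ℕ) := by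
  rcases Nat.eq_zero_or_pos c with h0 | h0
  · subst h0
    rw [Nat.zero_div, Nat.zero_div, Xf_zero, Lf_zero]
    simp
  · rw [Lf, dif_pos ⟨h, h0⟩]

theorem cl_zero (t : ℕ) : cl a b 0 t = t := by simp [cl]

theorem cl_succ (j t : ℕ) : cl a b (j + 1) t = cl a b j t / (a * b) := by
  rw [cl, cl, pow_succ, Nat.div_div_eq_div_mul]

theorem cl_add (i k t : ℕ) : cl a b (i + k) t = cl a b i t / (a * b) ^ k := by
  rw [cl, cl, pow_add, Nat.div_div_eq_div_mul]

theorem cl_mono (j : ℕ) : Monotone (cl a b j) := fun _ _ h => Nat.div_le_div_right h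

/-- the digits of a cell -/
theorem dig (ha : 0 < a) (c : ℕ) : c = a * b * (c / (a * b)) + (a * (c / a % b) + c % a) := by
  have h1 := Nat.div_add_mod c a
  have h2 := Nat.div_add_mod (c / a) b
  rw [Nat.div_div_eq_div_mul] at h2
  have h3 : a * (b * (c / (a * b)) + c / a % b) = a * (c / a) := by rw [h2]
  nlinarith

theorem col_lt (ha : 0 < a) (c : ℕ) : c % a < a := Nat.mod_lt _ ha

theorem row_lt (hb : 0 < b) (c : ℕ) : c / a % b < b := Nat.mod_lt _ hb

/-- the labels of the tapes -/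
theorem Phi_zero (t : ℕ) : Phi a b 0 t = Lf a b (cl a b 0 t) := by rw [cl_zero]; rfl

theorem Phi_succ (j t : ℕ) : Phi a b (j + 1) t = kp a b (j + 1) * Lf a b (cl a b (j + 1) t) +
      ((ab a b j).1 * (cl a b j t / a % b : ℕ) +
        (ab a b j).2 * (a - 1 - (cl a b j t % a : ℕ))) := rfl

theorem ab_pos (hb : 1 ≤ b) (j : ℕ) : 0 < (ab a b j).1 := by
  induction j with
  | zero => simp [ab]
  | succ j ih =>
    simp only [ab]
    have : 0 < 2 * b - 1 := by omega
    positivity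

theorem kp_pos (hb : 2 ≤ b) (j : ℕ) : 0 < kp a b j := by
  cases j with
  | zero => simp [kp]
  | succ j =>
    have := ab_pos (a := a) (show 1 ≤ b by omega) j
    have : 0 < b - 1 := by omega
    unfold kp
    positivity

theorem ab_succ_fst (hb : 1 ≤ b) (j : ℕ) :
    (ab a b (j + 1)).1 = b * (ab a b j).1 + kp a b (j + 1) := by
  obtain ⟨d, rfl⟩ : ∃ d, b = d + 1 := ⟨b - 1, by omega⟩
  have e : 2 * (d + 1) - 1 = 2 * d + 1 := by omega
  simp only [ab, kp, e, Nat.add_sub_cancel]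
  ring

theorem ab_succ_snd (j : ℕ) :
    (ab a b (j + 1)).2 = 2 * (ab a b j).1 + a * (ab a b j).2 := rfl

end LevelRow
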