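import Pool.Agent.LevelRow.Growth

/-!
# Explicit exponents
-/

namespace LevelRow

open LevelLower LevelRate LevelPseudo

theorem strict {c q γ : ℝ} (hc : 0 < c) (h : q < γ) : ∃ n₁ : ℕ, ∀ n ≥ n₁,
    (n : ℝ) ^ q ≤ c * (n : ℝ) ^ γ := by
  have h1 := (tendsto_rpow_atTop (show 0 < γ - q by linarith)).comp
    (tendsto_natCast_atTop_atTop (R := ℝ))
  obtain ⟨n₁, h2⟩ := Filter.eventually_atTop.1 (h1.eventually_ge_atTop (1 / c))
  refine ⟨max n₁ 1, fun n hn => ?_⟩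
  have h3 := h2 n (le_of_max_le_left hn)
  have h4 : (1 : ℝ) ≤ n := by exact_mod_cast le_of_max_le_right hn
  have h5 : (0 : ℝ) < n := by linarith
  rw [Function.comp_apply, div_le_iff₀ hc] at h3
  have h6 : (n : ℝ) ^ γ = (n : ℝ) ^ (γ - q) * (n : ℝ) ^ q := by
    rw [← Real.rpow_add h5, sub_add_cancel]
  rw [h6]
  have h7 : (0 : ℝ) < (n : ℝ) ^ q := Real.rpow_pos_of_pos h5 q
  nlinarith

/-- comparison of the exponent with a rational number `x / y` -/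
theorem expo {a b x y : ℕ} {G : ℝ} (hy : 0 < y) (h1 : 1 < grow a b) (hG : grow a b ≤ G)
    (hab : 0 < a * b) (h : G ^ x < ((a * b : ℕ) : ℝ) ^ y) :
    (x : ℝ) / y < Real.log ((a * b : ℕ) : ℝ) / Real.log (grow a b) := by
  have hl := Real.log_pos h1
  have hy' : (0 : ℝ) < y := by exact_mod_cast hy
  rw [div_lt_div_iff₀ hy' hl]
  have h2 : grow a b ^ x < ((a * b : ℕ) : ℝ) ^ y :=
    lt_of_le_of_lt (pow_le_pow_left₀ (by linarith) hG x) h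
  have h3 := Real.log_lt_log (by positivity) h2
  rw [Real.log_pow, Real.log_pow] at h3
  linarith

theorem grow_le {a b : ℕ} {r : ℝ} (hr : 0 ≤ r) (h : ((a : ℝ) - 2 * b + 1) ^ 2 + 8 * (a - 1) ≤ r ^ 2) :
    grow a b ≤ ((a + 2 * b - 1) + r) / 2 := by
  have h1 : √(((a : ℝ) - 2 * b + 1) ^ 2 + 8 * (a - 1)) ≤ r := by
    rw [← Real.sqrt_sq hr]
    exact Real.sqrt_le_sqrt h
  unfold grow
  linarith

/-- the explicit form of the main bound -/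
theorem numeric (a b x y s : ℕ) (r : ℝ) (ha : 2 ≤ a) (hb : 2 ≤ b) (hs : 2 * b - 1 ≤ s) (hy : 0 < y)
    (hr : 0 ≤ r) (h1 : ((a : ℝ) - 2 * b + 1) ^ 2 + 8 * (a - 1) ≤ r ^ 2)
    (h2 : (((a + 2 * b - 1) + r) / 2 : ℝ) ^ x < ((a * b : ℕ) : ℝ) ^ y) :
    ∃ n₀ : ℕ, ∀ n ≥ n₀, (n : ℝ) ^ ((x : ℝ) / y) ≤ PsiT s n ∧ PsiT s n ≤ Psi s n := by
  have hb' : (2 : ℝ) ≤ b := by exact_mod_cast hb
  have hg : 1 < grow a b := by
    have := grow_gt (b := b) ha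
    linarith
  obtain ⟨c, hc, n₀, h⟩ := main a b s ha hb hs
  obtain ⟨n₁, h'⟩ := strict hc (expo hy hg (grow_le hr h1) (by positivity) h2)
  refine ⟨max n₀ n₁, fun n hn => ?_⟩
  obtain ⟨h3, h4⟩ := h n (le_of_max_le_left hn)
  exact ⟨(h' n (le_of_max_le_right hn)).trans h3, h4⟩

theorem five (s : ℕ) (hs : 5 ≤ s) : ∃ n₀ : ℕ, ∀ n ≥ n₀,
    (n : ℝ) ^ (1.35 : ℝ) ≤ PsiT s n ∧ PsiT s n ≤ Psi s n := by
  have h := numeric 9 3 27 20 s 8.95 (by norm_num) (by norm_num) (by omega) (by norm_num)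
    (by norm_num) (by norm_num) (by norm_num)
  rwa [show ((27 : ℕ) : ℝ) / (20 : ℕ) = 1.35 by norm_num] at h

set_option exponentiation.threshold 1000 in
theorem seven (s : ℕ) (hs : 7 ≤ s) : ∃ n₀ : ℕ, ∀ n ≥ n₀,
    (n : ℝ) ^ (1.438 : ℝ) ≤ PsiT s n ∧ PsiT s n ≤ Psi s n := by
  have h := numeric 10 4 719 500 s 9 (by norm_num) (by norm_num) (by omega) (by norm_num)
    (by norm_num) (by norm_num) (by norm_num)
  rwa [show ((719 : ℕ) : ℝ) / (500 : ℕ) = 1.438 by norm_num] at h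

theorem nine (s : ℕ) (hs : 9 ≤ s) : ∃ n₀ : ℕ, ∀ n ≥ n₀,
    (n : ℝ) ^ (1.496 : ℝ) ≤ PsiT s n ∧ PsiT s n ≤ Psi s n := by
  have h := numeric 12 5 187 125 s 9.85 (by norm_num) (by norm_num) (by omega) (by norm_num)
    (by norm_num) (by norm_num) (by norm_num)
  rwa [show ((187 : ℕ) : ℝ) / (125 : ℕ) = 1.496 by norm_num] at h

set_option exponentiation.threshold 1000 in
theorem eleven (s : ℕ) (hs : 11 ≤ s) : ∃ n₀ : ℕ, ∀ n ≥ n₀,
    (n : ℝ) ^ (1.538 : ℝ) ≤ PsiT s n ∧ PsiT s n ≤ Psi s n := by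
  have h := numeric 14 6 769 500 s 10.631 (by norm_num) (by norm_num) (by omega) (by norm_num)
    (by norm_num) (by norm_num) (by norm_num)
  rwa [show ((769 : ℕ) : ℝ) / (500 : ℕ) = 1.538 by norm_num] at h

set_option exponentiation.threshold 1000 in
theorem fifteen (s : ℕ) (hs : 15 ≤ s) : ∃ n₀ : ℕ, ∀ n ≥ n₀,
    (n : ℝ) ^ (1.595 : ℝ) ≤ PsiT s n ∧ PsiT s n ≤ Psi s n := by
  have h := numeric 18 8 319 200 s 12.05 (by norm_num) (by norm_num) (by omega) (by norm_num)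
    (by norm_num) (by norm_num) (by norm_num)
  rwa [show ((319 : ℕ) : ℝ) / (200 : ℕ) = 1.595 by norm_num] at h

end LevelRow
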