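import Pool.Agent.LevelRow.Seq

/-!
# The growth of the system
-/

namespace LevelRow

open LevelLower LevelRate LevelPseudo

/-- the growth factor of the number of elements: the larger root of
`x ^ 2 - (a + 2 * b - 1) * x + ((2 * b - 3) * a + 2)` -/
noncomputable def grow (a b : ℕ) : ℝ :=
  ((a + 2 * b - 1) + √(((a : ℝ) - 2 * b + 1) ^ 2 + 8 * (a - 1))) / 2

variable {a b : ℕ}

theorem grow_root (ha : 1 ≤ a) :
    (grow a b - (2 * b - 1)) * (grow a b - a) = 2 * ((a : ℝ) - 1) := by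
  have ha' : (1 : ℝ) ≤ a := by exact_mod_cast ha
  have h := Real.sq_sqrt (show (0 : ℝ) ≤ ((a : ℝ) - 2 * b + 1) ^ 2 + 8 * (a - 1) by
    have := sq_nonneg ((a : ℝ) - 2 * b + 1)
    linarith)
  unfold grow
  linear_combination (1 / 4 : ℝ) * h

theorem grow_gt (ha : 2 ≤ a) : (2 * b - 1 : ℝ) < grow a b := by
  have ha' : (2 : ℝ) ≤ a := by exact_mod_cast ha
  have h : |(a : ℝ) - 2 * b + 1| < √(((a : ℝ) - 2 * b + 1) ^ 2 + 8 * (a - 1)) := by
    rw [← Real.sqrt_sq_eq_abs]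
    exact Real.sqrt_lt_sqrt (sq_nonneg _) (by linarith)
  have h2 := (abs_lt.1 h).1
  unfold grow
  linarith

theorem grow_vec (ha : 2 ≤ a) (hb : 1 ≤ b) (K : ℕ) :
    2 * ((ab a b K).1 : ℝ) + (grow a b - (2 * b - 1)) * (ab a b K).2 = 2 * grow a b ^ K := by
  induction K with
  | zero => simp [ab]
  | succ K ih =>
    have h := grow_root (b := b) (show 1 ≤ a by omega)
    have e1 : (((ab a b (K + 1)).1 : ℕ) : ℝ) =
        (2 * b - 1) * (ab a b K).1 + (a - 1) * (ab a b K).2 := by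
      simp only [ab]
      push_cast [Nat.cast_sub (show 1 ≤ a by omega), Nat.cast_sub (show 1 ≤ 2 * b by omega)]
      ring
    have e2 : (((ab a b (K + 1)).2 : ℕ) : ℝ) = 2 * (ab a b K).1 + a * (ab a b K).2 := by
      simp only [ab]
      push_cast
      ring
    rw [e1, e2, pow_succ, ← mul_assoc, ← ih]
    linear_combination (-((ab a b K).2 : ℝ)) * h

theorem grow_bound (ha : 2 ≤ a) (hb : 1 ≤ b) : ∃ C : ℝ, 1 ≤ C ∧ ∀ K,
    (((ab a b K).1 + (ab a b K).2 : ℕ) : ℝ) ≤ C * grow a b ^ K := by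
  have h1 := grow_gt (b := b) ha
  have h2 : 0 < grow a b - (2 * b - 1) := by linarith
  refine ⟨1 + 2 / (grow a b - (2 * b - 1)), by
    have : 0 < 2 / (grow a b - (2 * b - 1)) := by positivity
    linarith, fun K => ?_⟩
  have h3 := grow_vec ha hb K
  have h4 : (0 : ℝ) ≤ (ab a b K).1 := Nat.cast_nonneg _
  have h5 : (0 : ℝ) ≤ (ab a b K).2 := Nat.cast_nonneg _
  have h6 : ((ab a b K).1 : ℝ) ≤ grow a b ^ K := by
    have := mul_nonneg h2.le h5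
    linarith
  have h7 : ((ab a b K).2 : ℝ) ≤ 2 / (grow a b - (2 * b - 1)) * grow a b ^ K := by
    rw [div_mul_eq_mul_div, le_div_iff₀ h2]
    linarith
  push_cast
  linarith

/-- from sequences of sets of exponential length to all numbers -/
theorem growth_exact {s R : ℕ} {lam C : ℝ} {m : ℕ → ℕ} (hR : 2 ≤ R) (hlam : 1 < lam) (hC : 1 ≤ C)
    (hm : ∀ K, (m K : ℝ) ≤ C * lam ^ K)
    (h : ∀ K, ∃ N, R ^ K ≤ N ∧ KSeq s (m (K + 1)) N) :
    ∃ c : ℝ, 0 < c ∧ ∃ n₀ : ℕ, ∀ n ≥ n₀, ∃ N : ℕ, 1 ≤ N ∧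
      c * (n : ℝ) ^ (Real.log R / Real.log lam) ≤ N ∧ KSeq s n N := by
  obtain ⟨γ, hγ⟩ : ∃ γ, γ = Real.log R / Real.log lam := ⟨_, rfl⟩
  rw [← hγ]
  have hR' : (2 : ℝ) ≤ R := by exact_mod_cast hR
  have hl : 0 < Real.log lam := Real.log_pos hlam
  have hγ0 : 0 ≤ γ := by
    rw [hγ]
    exact div_nonneg (Real.log_nonneg (by linarith)) hl.le
  have hlam0 : 0 < lam := by linarith
  have hγR : lam ^ γ = R := by
    rw [Real.rpow_def_of_pos hlam0, hγ, mul_div_cancel₀ _ hl.ne']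
    exact Real.exp_log (by linarith)
  have hC0 : 0 < C := by linarith
  have hD : 0 < C ^ γ * (R : ℝ) ^ 2 := by positivity
  refine ⟨1 / (C ^ γ * R ^ 2), by positivity, ⌈C * lam⌉₊, fun n hn => ?_⟩
  have hn' : C * lam ≤ n := (Nat.le_ceil _).trans (by exact_mod_cast hn)
  have hx : 1 ≤ (n : ℝ) / C := by
    rw [le_div_iff₀ hC0]
    nlinarith
  obtain ⟨k, hk1, hk2⟩ := exists_nat_pow_near hx hlam
  have hk0 : k ≠ 0 := by
    rintro rfl
    rw [zero_add, pow_one, div_lt_iff₀ hC0] at hk2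
    linarith
  obtain ⟨K, rfl⟩ := Nat.exists_eq_succ_of_ne_zero hk0
  obtain ⟨N, hN1, hN2⟩ := h K
  have h1 : ((m (K + 1) : ℕ) : ℝ) ≤ n := by
    rw [le_div_iff₀ hC0] at hk1
    calc ((m (K + 1) : ℕ) : ℝ) ≤ C * lam ^ (K + 1) := hm _
      _ ≤ n := by
        rw [mul_comm]
        exact hk1
  have hRK : 1 ≤ R ^ K := Nat.one_le_pow _ _ (by omega)
  refine ⟨N, hRK.trans hN1, ?_, hN2.mono le_rfl (by exact_mod_cast h1) le_rfl⟩
  rw [div_lt_iff₀ hC0] at hk2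
  have h2 : (n : ℝ) ^ γ ≤ (R : ℝ) ^ K * (C ^ γ * R ^ 2) := by
    calc (n : ℝ) ^ γ ≤ (lam ^ (K + 1 + 1) * C) ^ γ :=
          Real.rpow_le_rpow (Nat.cast_nonneg _) hk2.le hγ0
      _ = (R : ℝ) ^ K * (C ^ γ * R ^ 2) := by
        rw [Real.mul_rpow (by positivity) hC0.le, ← Real.rpow_natCast, ← Real.rpow_mul hlam0.le,
          mul_comm ((K + 1 + 1 : ℕ) : ℝ) γ, Real.rpow_mul hlam0.le, hγR, Real.rpow_natCast]
        ring
  calc 1 / (C ^ γ * (R : ℝ) ^ 2) * (n : ℝ) ^ γ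
      ≤ 1 / (C ^ γ * (R : ℝ) ^ 2) * ((R : ℝ) ^ K * (C ^ γ * R ^ 2)) :=
        mul_le_mul_of_nonneg_left h2 (by positivity)
    _ = (R : ℝ) ^ K := by field_simp
    _ ≤ N := by exact_mod_cast hN1

theorem total_bound_c {s n N : ℕ} {x : ℝ} (h1 : 1 ≤ N) (h2 : x ≤ N)
    (h3 : KSeq s n N) : x ≤ PsiT s n ∧ PsiT s n ≤ Psi s n := by
  obtain ⟨f, f1, f2, k, hk, f3⟩ := total_of_seq h3 h1
  exact ⟨h2.trans (by exact_mod_cast f3.trans (le_PsiT f1 f2 hk)), PsiT_le_Psi s n⟩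

/-- **The main bound.** -/
theorem main (a b s : ℕ) (ha : 2 ≤ a) (hb : 2 ≤ b) (hs : 2 * b - 1 ≤ s) :
    ∃ c : ℝ, 0 < c ∧ ∃ n₀ : ℕ, ∀ n ≥ n₀,
      c * (n : ℝ) ^ (Real.log ((a * b : ℕ) : ℝ) / Real.log (grow a b)) ≤ PsiT s n ∧
        PsiT s n ≤ Psi s n := by
  obtain ⟨C, hC1, hC⟩ := grow_bound ha (show 1 ≤ b by omega)
  have hab : 2 ≤ a * b := by nlinarith
  have hlam : 1 < grow a b := by
    have h1 := grow_gt (b := b) ha
    have h2 : (2 : ℝ) ≤ b := by exact_mod_cast hb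
    linarith
  obtain ⟨c, hc, n₀, h⟩ := growth_exact (s := s) (R := a * b) (lam := grow a b) (C := C)
    (m := fun K => (ab a b K).1 + (ab a b K).2) hab hlam hC1 hC (fun K => by
      refine ⟨b * (a * b) ^ K - 1, ?_, (kseq ha hb K).mono hs le_rfl le_rfl⟩
      have h1 : 1 ≤ (a * b) ^ K := Nat.one_le_pow _ _ (by omega)
      have h2 : 2 * (a * b) ^ K ≤ b * (a * b) ^ K := Nat.mul_le_mul_right _ hb
      omega)
  refine ⟨c, hc, n₀, fun n hn => ?_⟩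
  obtain ⟨N, h1, h2, h3⟩ := h n hn
  exact total_bound_c h1 h2 h3

end LevelRow
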