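import Pool.Agent.LevelPseudo.Total
import Pool.Agent.LevelPseudo.Compare
import Pool.Agent.LevelRate.Heights

/-!
# Sequences of sets from heights
-/

namespace LevelRow

open LevelLower LevelRate LevelPseudo

theorem kseq_of_heights {n N s k M : ℕ} (sz : Fin n → ℕ) (H : Fin n → ℕ → ℕ)
    (hle : ∀ τ, ∀ t ≤ N, H τ t ≤ sz τ) (hsum : ∀ t ≤ N, ∑ τ, H τ t = k)
    (hne : ∀ t < N, ∃ τ, H τ t ≠ H τ (t + 1))
    (hs : ∀ τ τ', τ < τ' → ∀ θ θ' : ℕ,
      ∃ p, Ph (fun t => vl θ (H τ t) - vl θ' (H τ' t)) 0 (N + 1) p (p + s))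
    (hM : ∑ τ, sz τ ≤ M) : KSeq s M N := by
  classical
  have key : KSeqC (HC sz 0) s N := by
    refine ⟨k, HS sz 0 H, fun t ht => ?_, fun t ht heq => ?_, fun a b hab => ?_⟩
    · rw [card_HS _ _ _ _ (fun τ => hle τ t ht), hsum t ht]
    · obtain ⟨τ, hτ⟩ := hne t ht
      have h1 : ∀ i : Fin (sz τ), ((i : ℕ) < H τ t ↔ (i : ℕ) < H τ (t + 1)) := fun i => by
        have := congrArg (fun S => (Sum.inl ⟨τ, i⟩ : HC sz 0) ∈ S) heq
        simpa only [mem_HS_inl, eq_iff_iff] using this
      have h2 := hle τ t ht.le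
      have h3 := hle τ (t + 1) ht
      rcases lt_or_gt_of_ne hτ with h | h
      · have := (h1 ⟨H τ t, lt_of_lt_of_le h h3⟩).2 h
        exact absurd this (lt_irrefl _)
      · have := (h1 ⟨H τ (t + 1), lt_of_lt_of_le h h2⟩).1 h
        exact absurd this (lt_irrefl _)
    · have hvl : ∀ (c : Σ τ : Fin n, Fin (sz τ)) (t : ℕ),
          (if (Sum.inl c : HC sz 0) ∈ HS sz 0 H t then (1 : ℤ) else 0)
            = vl c.2 (H c.1 t) := fun c t => by
        simp only [mem_HS_inl, vl]
      rcases a with a | a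
      swap
      · exact a.elim0
      rcases b with b | b
      swap
      · exact b.elim0
      obtain ⟨τ, θ⟩ := a
      obtain ⟨τ', θ'⟩ := b
      simp only [hvl]
      rcases lt_trichotomy τ τ' with h | h | h
      · exact hs τ τ' h θ θ'
      · subst h
        rcases le_total (θ : ℕ) (θ' : ℕ) with h' | h'
        · refine Ph_of_nonneg fun t _ _ => ?_
          unfold vl
          split_ifs <;> omega
        · refine Ph_of_nonpos fun t _ _ => ?_
          unfold vl
          split_ifs <;> omega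
      · obtain ⟨p, hp⟩ := hs τ' τ h θ' θ
        refine ⟨p + 1, ?_⟩
        have h1 := LevelRate.Ph_neg hp
        have e2 : (fun t => -(vl θ' (H τ' t) - vl θ (H τ t))) =
            fun t => vl θ (H τ t) - vl θ' (H τ' t) := by
          funext t; ring
        rw [e2] at h1
        exact h1.mono le_rfl (by omega)
  refine key.toFin ?_
  rw [Fintype.card_sum, Fintype.card_sigma]
  simp only [Fintype.card_fin]
  omega

end LevelRow
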