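import Pool.Agent.LevelRow.Defs

/-!
# The order of columns and labels
-/

namespace LevelRow

variable {a b : ℕ}

/-- the column of a child -/
theorem Xf_child_lt (ha : 0 < a) (h : 2 ≤ a * b) {c c' : ℕ}
    (hX : Xf a b (c / (a * b)) < Xf a b (c' / (a * b))) : Xf a b c < Xf a b c' := by
  rw [Xf_eq h c, Xf_eq h c']
  have h1 := col_lt ha c
  have h2 : a * (Xf a b (c / (a * b)) + 1) ≤ a * Xf a b (c' / (a * b)) :=
    Nat.mul_le_mul_left _ hX
  rw [Nat.mul_add, Nat.mul_one] at h2
  omega

/-- a later cell with a label that is not smaller has a larger column -/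
theorem ord (ha : 0 < a) (hb : 0 < b) (h : 2 ≤ a * b) (c' : ℕ) : ∀ c, c < c' →
    Lf a b c ≤ Lf a b c' → Xf a b c < Xf a b c' := by
  induction c' using Nat.strong_induction_on with
  | _ c' ih =>
    intro c hc hL
    have hC : c / (a * b) ≤ c' / (a * b) := Nat.div_le_div_right hc.le
    rcases Nat.lt_or_eq_of_le hC with hC | hC
    · apply Xf_child_lt ha h
      by_cases hLL : Lf a b (c / (a * b)) ≤ Lf a b (c' / (a * b))
      · exact ih _ (Nat.div_lt_self (by omega) h) _ hC hLL
      · rw [Lf_eq h c, Lf_eq h c'] at hL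
        have h1 := row_lt (a := a) hb c
        have h2 : (b : ℤ) * (Lf a b (c' / (a * b)) + 1) ≤ b * Lf a b (c / (a * b)) :=
          mul_le_mul_of_nonneg_left (by omega) (by positivity)
        have h3 : (b : ℤ) * (Lf a b (c' / (a * b)) + 1) = b * Lf a b (c' / (a * b)) + b := by ring
        omega
    · rw [Lf_eq h c, Lf_eq h c', hC] at hL
      rw [Xf_eq h c, Xf_eq h c', hC]
      have e1 := dig (b := b) ha c
      have e2 := dig (b := b) ha c'
      rw [hC] at e1
      have h1 : a * (c / a % b) + c % a < a * (c' / a % b) + c' % a := by omega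
      have h2 : c' / a % b ≤ c / a % b := by omega
      have h3 : c' / a % b = c / a % b := by
        by_contra hcon
        have h4 : c' / a % b + 1 ≤ c / a % b := by omega
        have h5 : a * (c' / a % b + 1) ≤ a * (c / a % b) := Nat.mul_le_mul_left _ h4
        have h6 := col_lt ha c'
        rw [Nat.mul_add, Nat.mul_one] at h5
        omega
      rw [h3] at h1
      omega

theorem step (ha : 0 < a) (hb : 0 < b) (h : 2 ≤ a * b) {c c' : ℕ}
    (hX : Xf a b (c / (a * b)) < Xf a b (c' / (a * b)))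
    (hL : Lf a b (c / (a * b)) < Lf a b (c' / (a * b))) :
    Xf a b c < Xf a b c' ∧ Lf a b c < Lf a b c' := by
  refine ⟨Xf_child_lt ha h hX, ?_⟩
  rw [Lf_eq h c, Lf_eq h c']
  have h1 := row_lt (a := a) hb c'
  have h2 : (b : ℤ) * (Lf a b (c / (a * b)) + 1) ≤ b * Lf a b (c' / (a * b)) :=
    mul_le_mul_of_nonneg_left (by omega) (by positivity)
  have h3 : (b : ℤ) * (Lf a b (c / (a * b)) + 1) = b * Lf a b (c / (a * b)) + b := by ring
  omega

theorem descent (ha : 0 < a) (hb : 0 < b) (h : 2 ≤ a * b) (k : ℕ) : ∀ c c' : ℕ,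
    Xf a b (c / (a * b) ^ k) < Xf a b (c' / (a * b) ^ k) →
    Lf a b (c / (a * b) ^ k) < Lf a b (c' / (a * b) ^ k) →
    Xf a b c < Xf a b c' ∧ Lf a b c < Lf a b c' := by
  induction k with
  | zero =>
    intro c c' hX hL
    rw [pow_zero, Nat.div_one, Nat.div_one] at hX hL
    exact ⟨hX, hL⟩
  | succ k ih =>
    intro c c' hX hL
    have e : ∀ c, c / (a * b) ^ (k + 1) = c / (a * b) ^ k / (a * b) := fun c => by
      rw [pow_succ, Nat.div_div_eq_div_mul]
    rw [e, e] at hX hL
    obtain ⟨h1, h2⟩ := step ha hb h hX hL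
    exact ih c c' h1 h2

/-- labels of a lower level -/
theorem lab_le (ha : 0 < a) (hb : 0 < b) (h : 2 ≤ a * b) {i k p q : ℕ}
    (hX : Xf a b (cl a b (i + k) p) < Xf a b (cl a b (i + k) q))
    (hL : Lf a b (cl a b i q) ≤ Lf a b (cl a b i p)) :
    Lf a b (cl a b (i + k) q) ≤ Lf a b (cl a b (i + k) p) := by
  by_contra hcon
  rw [not_le, cl_add, cl_add] at hcon
  rw [cl_add, cl_add] at hX
  have := (descent ha hb h k _ _ hX hcon).2
  omega

end LevelRow
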