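import Pool.Agent.LevelRow.Order

/-!
# Pairs of tapes
-/

namespace LevelRow

open LevelLower LevelRate

variable {a b : ℕ}

/-- the sign of a pair -/
theorem sgn_cases (a b : Prop) [Decidable a] [Decidable b] :
    ((if a then (1 : ℤ) else 0) - (if b then 1 else 0) = -1 ∨
      (if a then (1 : ℤ) else 0) - (if b then 1 else 0) = 0 ∨
      (if a then (1 : ℤ) else 0) - (if b then 1 else 0) = 1) := by
  split_ifs <;> norm_num

theorem sgn_one {a b : Prop} [Decidable a] [Decidable b]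
    (h : (if a then (1 : ℤ) else 0) - (if b then 1 else 0) = 1) : a ∧ ¬ b := by
  split_ifs at h <;> simp_all

theorem sgn_neg_one {a b : Prop} [Decidable a] [Decidable b]
    (h : (if a then (1 : ℤ) else 0) - (if b then 1 else 0) = -1) : ¬ a ∧ b := by
  split_ifs at h <;> simp_all

theorem kp_succ_cast (ha : 1 ≤ a) (hb : 1 ≤ b) (j : ℕ) : (kp a b (j + 1) : ℤ) =
    (a - 1) * (ab a b j).2 + (b - 1) * (ab a b j).1 := by
  unfold kp
  push_cast [Nat.cast_sub ha, Nat.cast_sub hb]
  ring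

theorem Phi_bounds (ha : 1 ≤ a) (hb : 1 ≤ b) (j t : ℕ) :
    (kp a b j : ℤ) * Lf a b (cl a b j t) ≤ Phi a b j t ∧
    Phi a b j t ≤ (kp a b j : ℤ) * (Lf a b (cl a b j t) + 1) := by
  cases j with
  | zero =>
    rw [Phi_zero]
    simp [kp]
  | succ j =>
    rw [Phi_succ]
    have h1 := row_lt (a := a) (b := b) (by omega) (cl a b j t)
    have h2 := col_lt (a := a) (by omega) (cl a b j t)
    have h3 : (((ab a b j).1 : ℕ) : ℤ) * (cl a b j t / a % b : ℕ) ≤
        ((ab a b j).1 : ℕ) * (b - 1) := mul_le_mul_of_nonneg_left (by omega) (by positivity)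
    have h4 : (((ab a b j).2 : ℕ) : ℤ) * (a - 1 - (cl a b j t % a : ℕ)) ≤
        ((ab a b j).2 : ℕ) * (a - 1) := mul_le_mul_of_nonneg_left (by omega) (by positivity)
    have h5 : 0 ≤ (((ab a b j).1 : ℕ) : ℤ) * (cl a b j t / a % b : ℕ) := by positivity
    have h6 : 0 ≤ (((ab a b j).2 : ℕ) : ℤ) * (a - 1 - (cl a b j t % a : ℕ)) :=
      mul_nonneg (by positivity) (by omega)
    have e : (kp a b (j + 1) : ℤ) * (Lf a b (cl a b (j + 1) t) + 1) =
      kp a b (j + 1) * Lf a b (cl a b (j + 1) t) + kp a b (j + 1) := by ring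
    have e1 := kp_succ_cast ha hb j
    constructor
    · omega
    · rw [e, e1]
      linarith

/-- down at `p` and up at `q` -/
theorem lab_le_of_Phi (ha : 1 ≤ a) (hb : 2 ≤ b) {j p q : ℕ} {A : ℤ} (hp : Phi a b j p ≤ A)
    (hq : A < Phi a b j q) : Lf a b (cl a b j p) ≤ Lf a b (cl a b j q) := by
  have h1 := (Phi_bounds ha (by omega) (b := b) j p).1
  have h2 := (Phi_bounds ha (by omega) (b := b) j q).2
  have hk : (0 : ℤ) < kp a b j := by exact_mod_cast kp_pos hb j
  have h3 : (kp a b j : ℤ) * Lf a b (cl a b j p) < kp a b j * (Lf a b (cl a b j q) + 1) := by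
    linarith
  have h4 := lt_of_mul_lt_mul_left h3 hk.le
  omega

/-- two cells with the same parent -/
theorem lex (ha : 0 < a) {c c' : ℕ} (h : c ≤ c') (hC : c / (a * b) = c' / (a * b)) :
    c / a % b < c' / a % b ∨ (c / a % b = c' / a % b ∧ c % a ≤ c' % a) := by
  have e1 := dig (b := b) ha c
  have e2 := dig (b := b) ha c'
  rw [hC] at e1
  have h1 : a * (c / a % b) + c % a ≤ a * (c' / a % b) + c' % a := by omega
  rcases lt_trichotomy (c / a % b) (c' / a % b) with h2 | h2 | h2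
  · exact Or.inl h2
  · refine Or.inr ⟨h2, ?_⟩
    rw [h2] at h1
    omega
  · exfalso
    have h5 : a * (c' / a % b + 1) ≤ a * (c / a % b) := Nat.mul_le_mul_left _ h2
    have h6 := col_lt ha c'
    rw [Nat.mul_add, Nat.mul_one] at h5
    omega

/-- rows are monotone in a cell -/
theorem row_mono (ha : 0 < a) {J p q : ℕ} (h : p ≤ q) (hC : cl a b (J + 1) p = cl a b (J + 1) q) :
    cl a b J p / a % b ≤ cl a b J q / a % b := by
  rw [cl_succ, cl_succ] at hC
  rcases lex ha (cl_mono J h) hC with h1 | h1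
  · exact h1.le
  · exact h1.1.le

/-- the row of the upper time is larger in the same cell -/
theorem row_lt_of (ha : 1 ≤ a) (hb : 1 ≤ b) {J p q : ℕ} (h : p ≤ q)
    (hC : cl a b (J + 1) p = cl a b (J + 1) q) {B : ℤ}
    (hp : Phi a b (J + 1) p ≤ B) (hq : B < Phi a b (J + 1) q) :
    cl a b J p / a % b < cl a b J q / a % b := by
  rw [Phi_succ] at hp hq
  rw [← hC] at hq
  rw [cl_succ, cl_succ] at hC
  rcases lex ha (cl_mono J h) hC with h1 | h1
  · exact h1
  · exfalso
    rw [← h1.1] at hq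
    have h4 : (((ab a b J).2 : ℕ) : ℤ) * (a - 1 - (cl a b J q % a : ℕ)) ≤
        ((ab a b J).2 : ℕ) * (a - 1 - (cl a b J p % a : ℕ)) :=
      mul_le_mul_of_nonneg_left (by omega) (by positivity)
    linarith

/-- the main law for an up/down pair in different cells -/
theorem law_diff (ha : 1 ≤ a) (hb : 2 ≤ b) {i k p q : ℕ} (h : p ≤ q)
    (hC : cl a b (i + k + 1) p ≠ cl a b (i + k + 1) q)
    (h1 : Lf a b (cl a b (i + k + 1) p) ≤ Lf a b (cl a b (i + k + 1) q))
    (h2 : Lf a b (cl a b i q) ≤ Lf a b (cl a b i p)) :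
    Lf a b (cl a b (i + k + 1) p) = Lf a b (cl a b (i + k + 1) q) ∧
    cl a b (i + k) p / a % b + 2 * (Xf a b (cl a b (i + k + 1) q) -
      Xf a b (cl a b (i + k + 1) p) : ℤ) ≤ cl a b (i + k) q / a % b := by
  have hab : 2 ≤ a * b := by nlinarith
  have hlt : cl a b (i + k + 1) p < cl a b (i + k + 1) q :=
    lt_of_le_of_ne (cl_mono _ h) hC
  have hX := ord ha (by omega) hab _ _ hlt h1
  have hX' : Xf a b (cl a b (i + k) p) < Xf a b (cl a b (i + k) q) := by
    rw [cl_succ, cl_succ] at hX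
    exact Xf_child_lt ha hab hX
  have hL := lab_le ha (by omega) hab hX' h2
  rw [Lf_eq hab (cl a b (i + k) p), Lf_eq hab (cl a b (i + k) q), ← cl_succ, ← cl_succ] at hL
  have hr := row_lt (a := a) (b := b) (by omega) (cl a b (i + k) q)
  have e : Lf a b (cl a b (i + k + 1) p) = Lf a b (cl a b (i + k + 1) q) := by
    by_contra hcon
    have h3 : Lf a b (cl a b (i + k + 1) p) + 1 ≤ Lf a b (cl a b (i + k + 1) q) := by omega
    have h4 : (b : ℤ) * (Lf a b (cl a b (i + k + 1) p) + 1) ≤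
        b * Lf a b (cl a b (i + k + 1) q) := mul_le_mul_of_nonneg_left h3 (by positivity)
    have h5 : (b : ℤ) * (Lf a b (cl a b (i + k + 1) p) + 1) =
        b * Lf a b (cl a b (i + k + 1) p) + b := by ring
    omega
  refine ⟨e, ?_⟩
  rw [e] at hL
  push_cast at hL ⊢
  linarith

end LevelRow
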