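import Pool.Agent.LevelRow.System

/-!
# The sequence of sets
-/

namespace LevelRow

open LevelLower LevelRate LevelPseudo

variable {a b : ℕ}

theorem Ph_comp {f : ℕ → ℤ} {g : ℕ → ℕ} (hg : Monotone g) {N N' p q : ℕ} (h : Ph f 0 N' p q)
    (hN : ∀ t < N, g t < N') : Ph (fun t => f (g t)) 0 N p q := by
  obtain ⟨φ, h1, h2, h3⟩ := h
  exact ⟨fun t => φ (g t), h1.comp hg, fun t => h2 (g t), fun t _ ht =>
    h3 (g t) (Nat.zero_le _) (hN t ht)⟩

theorem snd_pos (hb : 1 ≤ b) (j : ℕ) : 0 < (ab a b (j + 1)).2 := by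
  have := ab_pos (a := a) hb j
  rw [ab_succ_snd]
  positivity

/-- two successive cells with the same parent have different labels -/
theorem act_ne {x y : ℕ} (hx : 0 < x) (hy : 0 < y) {c : ℕ} (ha : 0 < a)
    (hC : c / (a * b) = (c + 1) / (a * b))
    (h : (x : ℤ) * (c / a % b : ℕ) + y * (a - 1 - (c % a : ℕ)) =
      x * ((c + 1) / a % b : ℕ) + y * (a - 1 - ((c + 1) % a : ℕ))) : False := by
  have e1 := dig (b := b) ha c
  have e2 := dig (b := b) ha (c + 1)
  rw [← hC] at e2
  have h1 := col_lt ha c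
  have h2 := col_lt ha (c + 1)
  rcases lex (b := b) ha (show c ≤ c + 1 by omega) hC with h3 | ⟨h3, h3'⟩
  · have h4 : (x : ℤ) * ((c / a % b : ℕ) + 1) ≤ x * ((c + 1) / a % b : ℕ) :=
      mul_le_mul_of_nonneg_left (by omega) (by positivity)
    have h5 : a * (c / a % b + 1) ≤ a * ((c + 1) / a % b) := Nat.mul_le_mul_left _ h3
    rw [Nat.mul_add, Nat.mul_one] at h5
    have h6 : c % a = a - 1 := by omega
    have h7 : (c + 1) % a = 0 := by omega
    rw [h6, h7] at h
    have h8 : ((a - 1 : ℕ) : ℤ) = a - 1 := by push_cast [Nat.cast_sub ha]; ring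
    rw [h8] at h
    have h9 : 0 ≤ (y : ℤ) * (a - 1 - (0 : ℕ)) := mul_nonneg (by positivity) (by omega)
    have h10 : (y : ℤ) * (a - 1 - (a - 1)) = 0 := by ring
    have h11 : (0 : ℤ) < x := by exact_mod_cast hx
    rw [h10] at h
    linarith
  · rw [← h3] at h e2
    have h4 : (c + 1) % a = c % a + 1 := by omega
    rw [h4] at h
    have h11 : (0 : ℤ) < y := by exact_mod_cast hy
    push_cast at h
    linarith

theorem ne_step (ha : 2 ≤ a) (hb : 2 ≤ b) {K r : ℕ} (hK : 1 ≤ K)
    (hr : a * (r + 1) < (a * b) ^ K) : ∃ j ≤ K, Phi a b j (a * r) ≠ Phi a b j (a * (r + 1)) := by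
  by_contra hcon'
  have hcon : ∀ j ≤ K, Phi a b j (a * r) = Phi a b j (a * (r + 1)) := fun j hj => by
    by_contra hne
    exact hcon' ⟨j, hj, hne⟩
  have hab : 2 ≤ a * b := by nlinarith
  have key : ∀ d, d + 1 ≤ K → cl a b (K - d) (a * r) = cl a b (K - d) (a * (r + 1)) := by
    intro d
    induction d with
    | zero =>
      intro _
      have h1 : a * r < (a * b) ^ K := lt_of_le_of_lt (Nat.mul_le_mul_left _ (Nat.le_succ r)) hr
      rw [Nat.sub_zero, cl, cl, Nat.div_eq_of_lt h1, Nat.div_eq_of_lt hr]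
    | succ d ih =>
      intro hd
      obtain ⟨i, hi⟩ : ∃ i, K - (d + 1) = i + 1 := ⟨K - (d + 1) - 1, by omega⟩
      have h1 := ih (by omega)
      rw [show K - d = i + 1 + 1 by omega] at h1
      rw [hi]
      have h2 := hcon (i + 1 + 1) (by omega)
      rw [Phi_succ, Phi_succ, ← h1] at h2
      have h3 : cl a b (i + 1) (a * r) ≤ cl a b (i + 1) (a * (r + 1)) :=
        cl_mono _ (Nat.mul_le_mul_left _ (Nat.le_succ r))
      have h4 : cl a b (i + 1) (a * (r + 1)) ≤ cl a b (i + 1) (a * r) + 1 := by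
        have hp : 0 < (a * b) ^ (i + 1) := by positivity
        have h5 : a ≤ (a * b) ^ (i + 1) := by
          calc a ≤ a * b := Nat.le_mul_of_pos_right _ (by omega)
            _ = (a * b) ^ 1 := (pow_one _).symm
            _ ≤ (a * b) ^ (i + 1) := Nat.pow_le_pow_right (by omega) (by omega)
        unfold cl
        rw [← Nat.add_div_right _ hp, Nat.mul_add, Nat.mul_one]
        exact Nat.div_le_div_right (by omega)
      by_contra hne
      have h5 : cl a b (i + 1) (a * (r + 1)) = cl a b (i + 1) (a * r) + 1 := by omega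
      rw [cl_succ (i + 1), cl_succ (i + 1), h5] at h1
      rw [h5] at h2
      exact act_ne (x := (ab a b (i + 1)).1) (y := (ab a b (i + 1)).2) (ab_pos (by omega) _)
        (snd_pos (by omega) _) (by omega) h1 (by linarith)
  have h1 := key (K - 1) (by omega)
  rw [show K - (K - 1) = 0 + 1 by omega] at h1
  have h2 := hcon (0 + 1) (by omega)
  rw [Phi_succ, Phi_succ, ← h1, cl_zero, cl_zero, Nat.mul_div_cancel_left _ (by omega : 0 < a),
    Nat.mul_div_cancel_left _ (by omega : 0 < a)] at h2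
  rw [cl_succ, cl_succ, cl_zero, cl_zero, ← Nat.div_div_eq_div_mul, ← Nat.div_div_eq_div_mul,
    Nat.mul_div_cancel_left _ (by omega : 0 < a), Nat.mul_div_cancel_left _ (by omega : 0 < a)] at h1
  have e : ab a b 0 = (1, 0) := rfl
  rw [e] at h2
  have h3 : r % b = (r + 1) % b := by
    push_cast at h2
    have : ((r % b : ℕ) : ℤ) = ((r + 1) % b : ℕ) := by
      push_cast
      linarith
    exact_mod_cast this
  have h4 := Nat.div_add_mod r b
  have h5 := Nat.div_add_mod (r + 1) b
  rw [← h1, ← h3] at h5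
  omega

theorem kseq (ha : 2 ≤ a) (hb : 2 ≤ b) (K : ℕ) : KSeq (2 * b - 1)
    ((ab a b (K + 1)).1 + (ab a b (K + 1)).2) (b * (a * b) ^ K - 1) := by
  have hab : 2 ≤ a * b := by nlinarith
  have hpos : 0 < b * (a * b) ^ K := by positivity
  have hlt : ∀ t, t ≤ b * (a * b) ^ K - 1 → a * t < (a * b) ^ (K + 1) := fun t ht => by
    have h1 : a * (t + 1) ≤ a * (b * (a * b) ^ K) := Nat.mul_le_mul_left _ (by omega)
    rw [Nat.mul_add, Nat.mul_one] at h1
    have e : (a * b) ^ (K + 1) = a * (b * (a * b) ^ K) := by rw [pow_succ]; ring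
    rw [e]
    omega
  have hfin : ∀ τ : Fin (K + 1 + 1), (τ : ℕ) ≤ K + 1 := fun τ => by omega
  refine kseq_of_heights (n := K + 1 + 1) (N := b * (a * b) ^ K - 1)
    (k := ∑ j : Fin (K + 1 + 1), ht a b (K + 1) j 0)
    (fun j => sz a b (K + 1) j) (fun j t => ht a b (K + 1) j (a * t))
    (fun τ t h => ?_) (fun t h => ?_) (fun t h => ?_) (fun τ τ' h θ θ' => ?_)
    (sum_sz (by omega) (K + 1)).le
  · have h1 := ht_cast (by omega) hb (hfin τ) (hlt t h)
    have h2 := (ht_bounds (by omega) hb (hfin τ) (hlt t h)).2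
    rw [← h1] at h2
    exact_mod_cast h2
  · have h1 := sum_ht (a := a) (by omega) hb (hlt t h)
    have h2 := sum_ht (a := a) (by omega) hb (hlt 0 (Nat.zero_le _))
    rw [← h2, Nat.mul_zero] at h1
    exact_mod_cast h1
  · obtain ⟨j, hj, hne⟩ := ne_step ha hb (K := K + 1) (r := t) (by omega) (hlt (t + 1) (by omega))
    refine ⟨⟨j, by omega⟩, fun heq => hne ?_⟩
    have h1 := ht_cast (by omega) hb hj (hlt t (by omega))
    have h2 := ht_cast (by omega) hb hj (hlt (t + 1) (by omega))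
    dsimp only at heq
    rw [heq, h2] at h1
    linarith
  · obtain ⟨p, hp⟩ := pair (a := a) (b := b) (by omega) hb (i := τ) (j := τ') h
      (θ - kp a b τ * (b ^ (K + 1 - (τ : ℕ)) - 1)) (θ' - kp a b τ' * (b ^ (K + 1 - (τ' : ℕ)) - 1))
      ((a * b) ^ (K + 1))
    refine ⟨p, (Ph_comp (g := fun t => a * t) (fun x y hxy => Nat.mul_le_mul_left _ hxy) hp
      (fun t ht => hlt t (by omega))).congr (fun t _ ht => ?_)⟩
    have h1 := ht_cast (by omega) hb (hfin τ) (hlt t (by omega))
    have h2 := ht_cast (by omega) hb (hfin τ') (hlt t (by omega))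
    unfold vl
    congr 1
    · refine if_congr ?_ rfl rfl
      zify
      rw [h1]
      constructor <;> intro h <;> linarith
    · refine if_congr ?_ rfl rfl
      zify
      rw [h2]
      constructor <;> intro h <;> linarith

end LevelRow
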