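import Pool.Agent.LevelRow.Count
import Pool.Agent.LevelRow.Heights

/-!
# The system of tapes
-/

namespace LevelRow

open LevelLower LevelRate LevelPseudo

variable {a b : ℕ}

/-- the sum of the heights -/
theorem balance (ha : 1 ≤ a) (hb : 2 ≤ b) (K t : ℕ) : ∑ i ∈ Finset.range (K + 1), Phi a b i t =
    (ab a b K).1 * Lf a b (cl a b K t) + (ab a b K).2 * Xf a b (cl a b K t) +
      (a - 1) * ∑ n ∈ Finset.range K, ((ab a b n).2 : ℤ) := by
  have hab : 2 ≤ a * b := by nlinarith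
  induction K with
  | zero =>
    rw [Finset.sum_range_one, Phi_zero]
    simp [ab]
  | succ K ih =>
    rw [Finset.sum_range_succ, ih, Finset.sum_range_succ, Phi_succ,
      Lf_eq hab (cl a b K t), Xf_eq hab (cl a b K t), ← cl_succ, ab_succ_snd, ab_succ_fst (by omega)]
    push_cast
    ring

/-- the maximal label -/
def Sf (a b : ℕ) : ℕ → ℕ
  | 0 => 0
  | l + 1 => a * Sf a b l + 2 * b ^ l

theorem Lf_le_levels (ha : 1 ≤ a) (hb : 2 ≤ b) (k c : ℕ) : Lf a b c ≤
    b ^ k * Lf a b (c / (a * b) ^ k) + Sf a b k * Xf a b (c / (a * b) ^ k) + Sf a b k := by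
  have hab : 2 ≤ a * b := by nlinarith
  induction k with
  | zero => simp [Sf]
  | succ k ih =>
    have e : c / (a * b) ^ (k + 1) = c / (a * b) ^ k / (a * b) := by
      rw [pow_succ, Nat.div_div_eq_div_mul]
    rw [e]
    obtain ⟨C, hC⟩ : ∃ C, C = c / (a * b) ^ k := ⟨_, rfl⟩
    rw [← hC] at ih ⊢
    rw [Lf_eq hab C, Xf_eq hab C] at ih
    have h1 := col_lt (a := a) (by omega) C
    have h2 : (Sf a b k : ℤ) * (C % a : ℕ) ≤ Sf a b k * (a - 1) :=
      mul_le_mul_of_nonneg_left (by omega) (by positivity)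
    have h3 : 0 ≤ (b : ℤ) ^ k * (C / a % b : ℕ) := by positivity
    have h4 : 0 ≤ (b : ℤ) ^ k := by positivity
    have e2 : (Sf a b (k + 1) : ℤ) = a * Sf a b k + 2 * b ^ k := by
      simp only [Sf]
      push_cast
      ring
    rw [e2]
    rw [Nat.cast_add (a * Xf a b (C / (a * b))), Nat.cast_mul] at ih
    have e3 : (b : ℤ) ^ (k + 1) = b ^ k * b := pow_succ _ _
    rw [e3]
    linarith

theorem Lf_le (ha : 1 ≤ a) (hb : 2 ≤ b) {l c : ℕ} (hc : c < (a * b) ^ l) :
    Lf a b c ≤ Sf a b l := by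
  have h := Lf_le_levels ha hb l c
  rw [Nat.div_eq_of_lt hc, Lf_zero, Xf_zero] at h
  simpa using h

theorem le_Lf (ha : 1 ≤ a) (hb : 2 ≤ b) {l c : ℕ} (hc : c < (a * b) ^ l) :
    -((b : ℤ) ^ l - 1) ≤ Lf a b c := by
  have hab : 2 ≤ a * b := by nlinarith
  induction l generalizing c with
  | zero =>
    have : c = 0 := by simpa using hc
    subst this
    rw [Lf_zero]
    simp
  | succ l ih =>
    have h1 : c / (a * b) < (a * b) ^ l := by
      rw [Nat.div_lt_iff_lt_mul (by omega), ← pow_succ]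
      exact hc
    have h2 := ih h1
    rw [Lf_eq hab c]
    have h3 := row_lt (a := a) (b := b) (by omega) c
    have h4 : (b : ℤ) * (-((b : ℤ) ^ l - 1)) ≤ b * Lf a b (c / (a * b)) :=
      mul_le_mul_of_nonneg_left h2 (by positivity)
    have e : (b : ℤ) * (-((b : ℤ) ^ l - 1)) = -(b ^ (l + 1)) + b := by rw [pow_succ]; ring
    omega

/-- sizes of the tapes -/
def sz (a b K : ℕ) (j : ℕ) : ℕ := kp a b j * (Sf a b (K - j) + b ^ (K - j))

theorem sum_fst (hb : 1 ≤ b) (K : ℕ) :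
    ∑ j ∈ Finset.range (K + 1), kp a b j * b ^ (K - j) = (ab a b K).1 := by
  induction K with
  | zero => simp [kp, ab]
  | succ K ih =>
    rw [Finset.sum_range_succ, ab_succ_fst hb, ← ih, Finset.mul_sum, Nat.sub_self, pow_zero,
      mul_one]
    congr 1
    refine Finset.sum_congr rfl fun j hj => ?_
    rw [Finset.mem_range] at hj
    rw [show K + 1 - j = K - j + 1 by omega, pow_succ]
    ring

theorem sum_snd (hb : 1 ≤ b) (K : ℕ) :
    ∑ j ∈ Finset.range (K + 1), kp a b j * Sf a b (K - j) = (ab a b K).2 := by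
  induction K with
  | zero => simp [Sf, ab]
  | succ K ih =>
    rw [Finset.sum_range_succ, ab_succ_snd, ← ih, ← sum_fst hb K, Finset.mul_sum, Finset.mul_sum,
      Nat.sub_self, ← Finset.sum_add_distrib]
    have e : kp a b (K + 1) * Sf a b 0 = 0 := by simp [Sf]
    rw [e, Nat.add_zero]
    refine Finset.sum_congr rfl fun j hj => ?_
    rw [Finset.mem_range] at hj
    rw [show K + 1 - j = K - j + 1 by omega]
    simp only [Sf]
    ring

theorem sum_sz (hb : 1 ≤ b) (K : ℕ) :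
    ∑ j : Fin (K + 1), sz a b K j = (ab a b K).1 + (ab a b K).2 := by
  rw [Fin.sum_univ_eq_sum_range (fun j => sz a b K j), ← sum_fst hb K, ← sum_snd hb K,
    ← Finset.sum_add_distrib]
  refine Finset.sum_congr rfl fun j _ => ?_
  unfold sz
  ring

/-- heights -/
def ht (a b K : ℕ) (j : ℕ) (t : ℕ) : ℕ := (Phi a b j t + kp a b j * (b ^ (K - j) - 1)).toNat

theorem cl_lt (hab : 2 ≤ a * b) {K j t : ℕ} (hj : j ≤ K) (ht : t < (a * b) ^ K) :
    cl a b j t < (a * b) ^ (K - j) := by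
  unfold cl
  rw [Nat.div_lt_iff_lt_mul (by positivity), ← pow_add, Nat.sub_add_cancel hj]
  exact ht

theorem ht_bounds (ha : 1 ≤ a) (hb : 2 ≤ b) {K j t : ℕ} (hj : j ≤ K) (ht : t < (a * b) ^ K) :
    0 ≤ Phi a b j t + kp a b j * (b ^ (K - j) - 1) ∧
    Phi a b j t + kp a b j * (b ^ (K - j) - 1) ≤ sz a b K j := by
  have hab : 2 ≤ a * b := by nlinarith
  obtain ⟨h1, h2⟩ := Phi_bounds ha (by omega) (b := b) j t
  have h3 := Lf_le ha hb (cl_lt hab hj ht)
  have h4 := le_Lf ha hb (cl_lt hab hj ht)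
  have h5 : (kp a b j : ℤ) * -((b : ℤ) ^ (K - j) - 1) ≤ kp a b j * Lf a b (cl a b j t) :=
    mul_le_mul_of_nonneg_left h4 (by positivity)
  have h6 : (kp a b j : ℤ) * (Lf a b (cl a b j t) + 1) ≤ kp a b j * (Sf a b (K - j) + 1) :=
    mul_le_mul_of_nonneg_left (by omega) (by positivity)
  unfold sz
  push_cast
  constructor
  · linarith
  · linarith

theorem ht_cast (ha : 1 ≤ a) (hb : 2 ≤ b) {K j t : ℕ} (hj : j ≤ K) (h : t < (a * b) ^ K) :
    (ht a b K j t : ℤ) = Phi a b j t + kp a b j * (b ^ (K - j) - 1) :=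
  Int.toNat_of_nonneg (ht_bounds ha hb hj h).1

theorem sum_ht (ha : 1 ≤ a) (hb : 2 ≤ b) {K t : ℕ} (h : t < (a * b) ^ K) :
    ∑ j : Fin (K + 1), (ht a b K j t : ℤ) =
      (a - 1) * ∑ n ∈ Finset.range K, ((ab a b n).2 : ℤ) +
        ∑ j ∈ Finset.range (K + 1), (kp a b j : ℤ) * (b ^ (K - j) - 1) := by
  have hab : 2 ≤ a * b := by nlinarith
  rw [Fin.sum_univ_eq_sum_range (fun j => (ht a b K j t : ℤ))]
  have h1 : ∀ j ∈ Finset.range (K + 1), (ht a b K j t : ℤ) =
      Phi a b j t + kp a b j * (b ^ (K - j) - 1) := fun j hj => by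
    rw [Finset.mem_range] at hj
    exact ht_cast ha hb (by omega) h
  rw [Finset.sum_congr rfl h1, Finset.sum_add_distrib, balance ha hb]
  have h2 : cl a b K t = 0 := Nat.div_eq_of_lt h
  rw [h2, Lf_zero, Xf_zero]
  simp

end LevelRow
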